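import Pool.Agent.Helper27.T5b.Basic
import Pool.Agent.Helper30.T5b.NLb
import Pool.Agent.Helper30.T5b.Front
import Pool.Agent.Helper57.T5b.Last
import Pool.Agent.Helper63.T5.SLNumInst

/-!
# T5b: logarithms of the moduli `NL`, late states
-/

set_option autoImplicit false

namespace Pool.Agent.Helper63.T5b

open Finset Pool.Agent.Helper27.T4 Pool.Agent.Helper37.T5b
open Pool.Agent.Helper30.T5b hiding NL_pos
open Pool.Agent.Helper84.T5b Pool.Agent.Helper57.T5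
open Pool.Agent.Helper5.ET (bb era)
open Pool.Agent.Helper27.T5 (gw)
open Pool.Agent.Helper63.T5 (lam lam_gt lam_lt)
open Pool.Agent.Helper27.T5b (cpl_ef cpl_self Jn_mul_RT NL_pos rL_bounds)

variable {m k : ℕ}

/-- logarithm of the modulus -/
noncomputable def lg (m k x : ℕ) : ℝ := Real.log (NL m k x)

theorem exp_lg (m k x : ℕ) : Real.exp (lg m k x) = NL m k x :=
  Real.exp_log (by exact_mod_cast NL_pos m k x)

theorem exp_nat_lam (n : ℕ) : Real.exp ((n : ℝ) * lam) = (10 ^ 6) ^ n := by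
  have h1 : lam = Real.log (10 ^ 6) := rfl
  rw [h1, ← Real.log_pow, Real.exp_log (by positivity)]

theorem lg_ge (m k : ℕ) {x y : ℕ} (h : x ≤ y) :
    ((y - x : ℕ) : ℝ) * lam ≤ lg m k y - lg m k x := by
  have h1 := NL_lower m k h
  have h2 : (NL m k x : ℝ) * (10 ^ 6) ^ (y - x) ≤ NL m k y := by exact_mod_cast h1
  rw [← exp_nat_lam, ← exp_lg, ← exp_lg, ← Real.exp_add] at h2
  have h3 := Real.exp_le_exp.1 h2
  linarith

theorem lg_mono (m k : ℕ) {x y : ℕ} (h : x ≤ y) : lg m k x ≤ lg m k y := by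
  have h1 := lg_ge m k h
  have h2 : 0 ≤ ((y - x : ℕ) : ℝ) * lam := mul_nonneg (Nat.cast_nonneg _) (by
    have := lam_gt
    linarith)
  linarith

theorem lg_lt (m k : ℕ) {x y : ℕ} (h : x < y) : lg m k x < lg m k y := by
  have h1 := lg_ge m k h.le
  have h3 : (1 : ℝ) ≤ ((y - x : ℕ) : ℝ) := by exact_mod_cast (by omega : 1 ≤ y - x)
  have h2 : 0 < ((y - x : ℕ) : ℝ) * lam := mul_pos (by linarith) (by
    have := lam_gt
    linarith)
  linarith

theorem le_of_lg_le (m k : ℕ) {x y : ℕ} (h : lg m k x ≤ lg m k y) : x ≤ y := by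
  by_contra hc
  have := lg_lt m k (not_le.1 hc)
  linarith

/-- `l'` is late: the digits of the newborn triples are rare, the sizes are large against `c` -/
structure LateN (m k : ℕ) (c : ℝ) (l' : ℕ) : Prop where
  bb : bb 0 ≤ mL m k l'
  nl : ∃ C : ℕ, (∀ x y n, l' ≤ x → x ≤ y → 10001 * (y - x) + C ≤ 10000 * n →
    NL m k y ≤ NL m k x * (10 ^ 6) ^ n) ∧ C + 20000 ≤ SS m (bL m k l')
  qf : ∀ t, bL m k l' < t → ∀ (f : Fin 3) (n : ℕ), 10001 * n ≤ 10000 * dz m t f →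
    (10 ^ 6) ^ n ≤ QF m k t f
  c : c ≤ SS m (bL m k l')

/-- the last window of a late state is large -/
theorem exists_SS_bL_ge (hm : 2 ≤ m) (k : ℕ) (c : ℝ) : ∃ l0 : ℕ, ∀ l ≥ l0,
    c ≤ (SS m (bL m k l) : ℝ) := by
  obtain ⟨c0, l0, h0, h1⟩ := Pool.Agent.Helper57.T5b.exists_le_SS_bL hm k
  have h2 : Filter.Tendsto (fun l : ℕ => (l : ℝ) ^ c0) Filter.atTop Filter.atTop :=
    (tendsto_rpow_atTop h0).comp tendsto_natCast_atTop_atTop
  obtain ⟨l1, h3⟩ := Filter.eventually_atTop.1 (h2.eventually_ge_atTop c)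
  refine ⟨max l0 l1, fun l hl => ?_⟩
  exact (h3 l (le_trans (le_max_right _ _) hl)).trans (h1 l (le_trans (le_max_left _ _) hl))

theorem exists_lateN (hm : 2 ≤ m) (k : ℕ) (c : ℝ) : ∃ l0 : ℕ, ∀ l' ≥ l0, LateN m k c l' := by
  have hm0 : 0 < m := by omega
  obtain ⟨l1, C, h1⟩ := exists_NL_le (k := k) hm0
  obtain ⟨t0, h2⟩ := exists_pow_le_QF hm0 k
  obtain ⟨l2, h3⟩ := exists_SS_bL_ge hm k c
  obtain ⟨l3, h4⟩ := exists_SS_bL_ge hm k ((C + 20000 : ℕ) : ℝ)
  obtain ⟨l4, h5⟩ := exists_SS_bL_ge hm k ((SS m t0 : ℕ) : ℝ)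
  obtain ⟨l5, h6⟩ := tendsto_l1 m k (Pool.Agent.Helper5.ET.bb 0)
  refine ⟨max (max l1 l2) (max (max l3 l4) l5), fun l' hl' => ?_⟩
  simp only [ge_iff_le, max_le_iff] at hl'
  obtain ⟨⟨g1, g2⟩, ⟨g3, g4⟩, g5⟩ := hl'
  refine ⟨h6 l' g5, ⟨C, fun x y n hx hy hn => h1 x y n (by omega) hy hn, ?_⟩, ?_, h3 l' g2⟩
  · exact_mod_cast h4 l' g3
  · intro t ht f n hn
    refine h2 t ?_ f n hn
    have h7 : SS m t0 ≤ SS m (bL m k l') := by exact_mod_cast h5 l' g4
    have h8 : t0 ≤ bL m k l' := (SS_strictMono m).le_iff_le.1 h7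
    omega

theorem LateN.mono {c c' : ℝ} {l' : ℕ} (h : LateN m k c l') (hc : c' ≤ c) : LateN m k c' l' :=
  ⟨h.bb, h.nl, h.qf, hc.trans h.c⟩

/-- upper bound of the growth: `W` is the size of a window -/
theorem LateN.lg_le {c : ℝ} {l' x y W : ℕ} (h : LateN m k c l') (hx : l' ≤ x) (hy : x ≤ y)
    (hW : SS m (bL m k l') ≤ W) :
    lg m k y - lg m k x ≤ (10001 / 10000 * ((y - x : ℕ) : ℝ) + W / 10000) * lam := by
  obtain ⟨C, h1, h2⟩ := h.nl
  set n : ℕ := (10001 * (y - x) + C) / 10000 + 1 with hn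
  have h3 : 10001 * (y - x) + C ≤ 10000 * n := by
    have := Nat.div_add_mod (10001 * (y - x) + C) 10000
    have := Nat.mod_lt (10001 * (y - x) + C) (show 0 < 10000 by norm_num)
    omega
  have h4 := h1 x y n hx hy h3
  have h5 : (NL m k y : ℝ) ≤ NL m k x * (10 ^ 6) ^ n := by exact_mod_cast h4
  rw [← exp_nat_lam, ← exp_lg, ← exp_lg, ← Real.exp_add] at h5
  have h6 := Real.exp_le_exp.1 h5
  have h7 : (n : ℝ) ≤ 10001 / 10000 * ((y - x : ℕ) : ℝ) + W / 10000 := by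
    have h8 : 10000 * n ≤ 10001 * (y - x) + W := by
      have := Nat.mul_div_le (10001 * (y - x) + C) 10000
      omega
    have h9 : (10000 : ℝ) * n ≤ 10001 * ((y - x : ℕ) : ℝ) + W := by exact_mod_cast h8
    linarith
  have h8 := mul_le_mul_of_nonneg_right h7 (show 0 ≤ lam by
    have := lam_gt
    linarith)
  linarith

/-- bounds of a lead in natural logarithms -/
theorem LateN.lead (hm : 0 < m) {c : ℝ} {l' l t : ℕ} (h : LateN m k c l') (hl : l' ≤ l)
    (ht : bL m k l' ≤ t) :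
    0.0107 * ((SS m t : ℝ) * lam) ≤ lg m k (ez m t l) - lg m k l ∧
      lg m k (ez m t l) - lg m k l ≤ 0.0128 * ((SS m t : ℝ) * lam) := by
  have e1 := lt_ez hm t l
  have e2 := lt_ez_sub hm t l
  have e3 := two_ez_le m t l
  have e4 := PZ_mul hm t
  have e5 : 1024 * (ez m t l - l) ≤ 13 * SS m t := by omega
  have e6 := lam_gt
  have e7 : 11 * (SS m t : ℝ) ≤ 1024 * ((ez m t l - l : ℕ) : ℝ) := by exact_mod_cast e2.le
  have e8 : 1024 * ((ez m t l - l : ℕ) : ℝ) ≤ 13 * (SS m t : ℝ) := by exact_mod_cast e5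
  have e9 : (0 : ℝ) ≤ SS m t := Nat.cast_nonneg _
  constructor
  · have h1 := lg_ge m k e1.le
    have h2 : 0.0107 * (SS m t : ℝ) ≤ ((ez m t l - l : ℕ) : ℝ) := by linarith
    have h3 := mul_le_mul_of_nonneg_right h2 (show 0 ≤ lam by linarith)
    linarith
  · have h1 := h.lg_le hl e1.le (SS_mono m ht)
    have h2 : 10001 / 10000 * ((ez m t l - l : ℕ) : ℝ) + (SS m t : ℝ) / 10000 ≤
        0.0128 * (SS m t : ℝ) := by linarith
    have h3 := mul_le_mul_of_nonneg_right h2 (show 0 ≤ lam by linarith)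
    linarith

/-- real form of the joint modulus -/
theorem Jn_real {s x : ℕ} (h : Pool.Agent.Helper48.T5b.Cpl m k s x) :
    (Jn m k s x : ℝ) = Real.exp (lg m k x) / RT m k s := by
  have h1 := Jn_mul_RT h
  have h2 : (0 : ℝ) < RT m k s := by exact_mod_cast RT_pos m k s
  rw [eq_div_iff h2.ne', exp_lg]
  exact_mod_cast h1

/-- the size of the family `f` of the triple `t`, lower bound -/
theorem LateN.q_ge (hm : 0 < m) {c : ℝ} {l' t : ℕ} (h : LateN m k c l') (ht : bL m k l' < t)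
    (f : Fin 3) {a : ℝ} (ha : a + 1 / 1000 ≤ (gw f : ℝ) / 8) :
    Real.exp (a * ((SS m t : ℝ) * lam)) ≤ QF m k t f := by
  obtain ⟨u, rfl⟩ : ∃ u, t = u + 1 := ⟨t - 1, by omega⟩
  have e1 := eight_mul_dz hm (u + 1) f
  have e2 := SS_add_Sg m (u + 1)
  rw [Nat.add_sub_cancel] at e2
  have e3 := SS_succ_ge hm u
  have e4 : 2 ^ 20 * SS m u ≤ SS m (u + 1) :=
    (Nat.mul_le_mul_right _ (Nat.pow_le_pow_right (by norm_num) (by norm_num))).trans e3
  obtain ⟨C, -, h2⟩ := h.nl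
  have h3 : SS m (bL m k l') ≤ SS m u := SS_mono m (by omega)
  set d : ℕ := dz m (u + 1) f with hd
  set n : ℕ := 10000 * d / 10001 with hn
  have h4 : 10001 * n ≤ 10000 * d := Nat.mul_div_le _ _
  have h5 : 10000 * d < 10001 * (n + 1) := by
    rw [hn]
    exact Nat.lt_mul_div_succ _ (by norm_num)
  have h6 := h.qf (u + 1) ht f n h4
  have h7 : ((10 : ℝ) ^ 6) ^ n ≤ QF m k (u + 1) f := by exact_mod_cast h6
  rw [← exp_nat_lam] at h7
  refine le_trans (Real.exp_le_exp.2 ?_) h7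
  rw [← mul_assoc]
  apply mul_le_mul_of_nonneg_right _ (by have := lam_gt; linarith)
  have f1 : 8 * (d : ℝ) = gw f * Sg m (u + 1) := by exact_mod_cast e1
  have f2 : (SS m u : ℝ) + Sg m (u + 1) = SS m (u + 1) := by exact_mod_cast e2
  have f3 : (2 : ℝ) ^ 20 * SS m u ≤ SS m (u + 1) := by exact_mod_cast e4
  have f4 : 10000 * (d : ℝ) ≤ 10001 * (n + 1) := by exact_mod_cast h5.le
  have f5 : (20000 : ℝ) ≤ SS m u := by exact_mod_cast (by omega : 20000 ≤ SS m u)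
  have f6 : (0 : ℝ) ≤ (gw f : ℝ) := Nat.cast_nonneg _
  have f7 : (gw f : ℝ) ≤ 3 := by
    have : gw f ≤ 3 := by fin_cases f <;> simp [gw]
    exact_mod_cast this
  have f8 : (gw f : ℝ) * SS m u ≤ 3 * SS m u := by nlinarith
  have f9 : (gw f : ℝ) * Sg m (u + 1) = gw f * SS m (u + 1) - gw f * SS m u := by
    rw [← f2]
    ring
  have f10 := mul_le_mul_of_nonneg_right ha (show (0 : ℝ) ≤ SS m (u + 1) from Nat.cast_nonneg _)
  have f11 : (gw f : ℝ) * SS m (u + 1) ≤ 3 * SS m (u + 1) := by nlinarith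
  norm_num at f3
  nlinarith

/-- the size of the family `f` of the triple `t`, upper bound -/
theorem q_le (hm : 0 < m) (k t : ℕ) (f : Fin 3) :
    (QF m k t f : ℝ) ≤ Real.exp ((gw f : ℝ) / 8 * ((SS m t : ℝ) * lam)) := by
  have h1 := QF_le m k t f
  have h2 : (QF m k t f : ℝ) ≤ (10 ^ 6) ^ dz m t f := by exact_mod_cast h1
  rw [← exp_nat_lam] at h2
  refine h2.trans (Real.exp_le_exp.2 ?_)
  rw [← mul_assoc]
  apply mul_le_mul_of_nonneg_right _ (by have := lam_gt; linarith)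
  have e1 := eight_mul_dz hm t f
  have e2 : gw f * Sg m t ≤ gw f * SS m t := Nat.mul_le_mul_left _ (Sg_le m t)
  have e3 : 8 * (dz m t f : ℝ) ≤ gw f * SS m t := by exact_mod_cast (by omega :
    8 * dz m t f ≤ gw f * SS m t)
  linarith

end Pool.Agent.Helper63.T5b
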