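import Pool.Agent.Helper87.SL.NumDefs

/-!
# T5, block SL: consequences of the structure `Num` of helper87 (abstract form)

`Pool.Agent.Helper87.SL.Num P D w s s' K` gives the sizes of a pair of states in natural logarithms.
`NumX` adds: at most three levels, sharp upper bounds of the moduli, a ratio `≥ 1000` of the sizes.
Consequences: the requirements `size`, `zF`, `mid` of `Pr.Ok`, the prices `hA`, `hB`, and `hGamma`
of the level theorem.
-/

set_option autoImplicit false

namespace Pool.Agent.Helper63.T5b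

open Finset Real Pool.Agent.Helper22.SL Pool.Agent.Helper87.SL

variable {κ : Type*}

/-- the weight of the family: `3, 3, 2` (eighths) -/
noncomputable def wt (i : Fin 3) : ℝ := if i = 2 then 2 / 8 else 3 / 8

theorem wt0 : wt 0 = 3 / 8 := by
  unfold wt
  rw [if_neg (by decide)]

theorem wt1 : wt 1 = 3 / 8 := by
  unfold wt
  rw [if_neg (by decide)]

theorem wt2 : wt 2 = 2 / 8 := by
  unfold wt
  rw [if_pos rfl]

/-- the structure `Num` with more -/
structure NumX (P : Pr κ) (D : ℝ) (w s s' : ℕ → ℝ) (K : ℝ) : Prop extends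
    Num P D w s s' K where
  h3 : P.h ≤ 3
  qg : ∀ r < P.h, ∀ i, (P.q r i : ℝ) ≤ exp (wt i * w r)
  deepX : ∀ r < P.h, 1000 * w (r + 1) ≤ w r

section num

variable {P : Pr κ} {D : ℝ} {w s s' : ℕ → ℝ} {K : ℝ}

theorem NumX.w_nonneg (h : NumX P D w s s' K) {r : ℕ} (hr : r ≤ P.h) : 0 ≤ w r := by
  rcases hr.lt_or_eq with hr | hr
  · have := h.w1 r hr
    linarith
  · rw [hr]
    exact h.w0

theorem NumX.w_succ_le (h : NumX P D w s s' K) {r : ℕ} (hr : r < P.h) : w (r + 1) ≤ w r := by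
  have h1 := h.deep r hr
  have h2 := h.w1 r hr
  linarith [h.w_nonneg (show r + 1 ≤ P.h from hr)]

theorem NumX.w_anti (h : NumX P D w s s' K) {r t : ℕ} (hrt : r ≤ t) (ht : t ≤ P.h) : w t ≤ w r := by
  induction t with
  | zero =>
    have : r = 0 := by omega
    rw [this]
  | succ t ih =>
    rcases Nat.lt_or_ge t r with h1 | h1
    · have : r = t + 1 := by omega
      rw [this]
    · exact (h.w_succ_le (by omega)).trans (ih h1 (by omega))

theorem NumX.M_pos (h : NumX P D w s s' K) : (0 : ℝ) < P.M := by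
  rw [h.M]
  have h1 : (0 : ℝ) < P.M' := by exact_mod_cast h.M'0
  exact mul_pos h1 (exp_pos _)

theorem NumX.M'_pos (h : NumX P D w s s' K) : (0 : ℝ) < P.M' := by exact_mod_cast h.M'0

theorem NumX.F_pos (h : NumX P D w s s' K) {r : ℕ} (hr : r ≤ P.h) : (0 : ℝ) < P.F r := by
  rw [h.F r hr]
  exact mul_pos h.M_pos (exp_pos _)

theorem NumX.F'_pos (h : NumX P D w s s' K) {r : ℕ} (hr : r ≤ P.h) : (0 : ℝ) < P.F' r := by
  rw [h.F' r hr]
  exact mul_pos h.M'_pos (exp_pos _)

theorem NumX.q_pos (h : NumX P D w s s' K) {r : ℕ} (hr : r < P.h) (i : Fin 3) :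
    (0 : ℝ) < P.q r i := by
  have h0 := (exp_pos _).trans_le (h.q0 r hr)
  have h1 := (exp_pos _).trans_le (h.q1 r hr)
  have h2 := (exp_pos _).trans_le (h.q2 r hr)
  fin_cases i
  · exact h0
  · exact h1
  · exact h2

/-- the upper front in units of the lower modulus -/
theorem NumX.F_low (h : NumX P D w s s' K) {r : ℕ} (hr : r ≤ P.h) :
    (P.F r : ℝ) = P.M' * exp (D + s r) := by
  rw [h.F r hr, h.M, exp_add]
  ring

/-- the quotient of the fronts -/
theorem NumX.F_ratio (h : NumX P D w s s' K) {r : ℕ} (hr : r ≤ P.h) :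
    (P.F' r : ℝ) / P.F r = exp (-(D + s r - s' r)) := by
  rw [h.F_low hr, h.F' r hr, mul_div_mul_left _ _ h.M'_pos.ne', ← exp_sub]
  congr 1
  ring

theorem log_24_lt : Real.log 24 < 4 := by
  have h1 : (24 : ℝ) < exp 4 := by
    have h2 : exp 4 = exp 1 ^ 4 := by
      rw [← exp_nat_mul]
      norm_num
    rw [h2]
    have h3 := exp_one_gt_d9
    calc (24 : ℝ) < 2.7182818283 ^ 4 := by norm_num
      _ ≤ exp 1 ^ 4 := by gcongr
  have h4 := (Real.log_lt_log (by norm_num) h1).trans_eq (Real.log_exp 4)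
  exact h4

theorem const_mul_exp_lt {c x y : ℝ} (hc0 : 0 < c) (hc : c ≤ 24) (h : x + 4 ≤ y) :
    c * exp x < exp y := by
  calc c * exp x = exp (Real.log c + x) := by rw [exp_add, exp_log hc0]
    _ < exp y := by
      apply exp_lt_exp.2
      have h1 : Real.log c ≤ Real.log 24 := Real.log_le_log hc0 hc
      have h2 := log_24_lt
      linarith

/-- **zF**, with `24` instead of `6` -/
theorem NumX.zF24 (h : NumX P D w s s' K) {r : ℕ} (hr : r < P.h) :
    24 * P.F r < P.M' * P.q r 0 := by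
  have e1 := h.su r hr.le
  have e2 := h.Dl r hr
  have e3 := h.w1 r hr
  have key : (24 : ℝ) * P.F r < P.M' * P.q r 0 := by
    rw [h.F_low hr.le]
    calc (24 : ℝ) * (P.M' * exp (D + s r)) = P.M' * (24 * exp (D + s r)) := by ring
      _ < P.M' * exp (0.374 * w r) := by
        apply mul_lt_mul_of_pos_left _ h.M'_pos
        apply const_mul_exp_lt (by norm_num) le_rfl
        linarith
      _ ≤ P.M' * P.q r 0 := mul_le_mul_of_nonneg_left (h.q0 r hr) h.M'_pos.le
  exact_mod_cast key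

theorem NumX.zF (h : NumX P D w s s' K) {r : ℕ} (hr : r < P.h) : 6 * P.F r < P.M' * P.q r 0 := by
  have := h.zF24 hr
  omega

/-- **mid** -/
theorem NumX.mid (h : NumX P D w s s' K) {r : ℕ} (hr : r + 1 < P.h) :
    P.F (r + 1) ≤ P.F' (r + 1) * P.q r 2 := by
  have e1 := h.su (r + 1) hr.le
  have e2 := h.Dl (r + 1) hr
  have e3 := h.sl' (r + 1) hr.le
  have e4 := h.deep r (by omega)
  have e5 := h.w1 (r + 1) hr
  have key : (P.F (r + 1) : ℝ) ≤ P.F' (r + 1) * P.q r 2 := by
    rw [h.F_low hr.le, h.F' _ hr.le, mul_assoc]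
    apply mul_le_mul_of_nonneg_left _ h.M'_pos.le
    calc exp (D + s (r + 1)) ≤ exp (s' (r + 1) + 0.249 * w r) := by
          apply exp_le_exp.2
          linarith
      _ = exp (s' (r + 1)) * exp (0.249 * w r) := exp_add _ _
      _ ≤ exp (s' (r + 1)) * P.q r 2 :=
          mul_le_mul_of_nonneg_left (h.q2 r (by omega)) (exp_pos _).le
  exact_mod_cast key

theorem Pr_L_succ (P : Pr κ) (r : ℕ) : P.L (r + 1) = P.L r * P.Q r := by
  unfold Pr.L
  rw [Finset.prod_range_succ, mul_assoc]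

theorem Pr_Q_eq (P : Pr κ) (r : ℕ) : P.Q r = P.q r 0 * P.q r 1 * P.q r 2 := by
  unfold Pr.Q Pool.Agent.Helper27.T4.NN Pr.q
  rw [Fin.prod_univ_three]

theorem NumX.q0_le_Q (h : NumX P D w s s' K) {r : ℕ} (hr : r < P.h) : P.q r 0 ≤ P.Q r := by
  have h1 : 0 < P.q r 1 := by exact_mod_cast h.q_pos hr 1
  have h2 : 0 < P.q r 2 := by exact_mod_cast h.q_pos hr 2
  rw [Pr_Q_eq, mul_assoc]
  exact Nat.le_mul_of_pos_right _ (Nat.mul_pos h1 h2)

/-- **size**, with `8` instead of `2` -/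
theorem NumX.size8 (h : NumX P D w s s' K) {r : ℕ} (hr : r < P.h) :
    8 * (P.F r * P.L r) ≤ P.F (r + 1) * P.L (r + 1) := by
  have e1 := h.su r hr.le
  have e2 := h.sl (r + 1) hr
  have e3 := h.w1 r hr
  have e4 := h.w_nonneg (show r + 1 ≤ P.h from hr)
  have key : 8 * P.F r ≤ P.F (r + 1) * P.Q r := by
    have h1 : (8 : ℝ) * P.F r ≤ P.F (r + 1) * P.q r 0 := by
      rw [h.F r hr.le, h.F (r + 1) hr]
      calc (8 : ℝ) * (P.M * exp (s r)) = P.M * (8 * exp (s r)) := by ring
        _ ≤ P.M * exp (s (r + 1) + 0.374 * w r) := by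
          apply mul_le_mul_of_nonneg_left _ h.M_pos.le
          apply (const_mul_exp_lt (by norm_num) (by norm_num) _).le
          linarith
        _ = P.M * exp (s (r + 1)) * exp (0.374 * w r) := by rw [exp_add]; ring
        _ ≤ _ := mul_le_mul_of_nonneg_left (h.q0 r hr) (mul_pos h.M_pos (exp_pos _)).le
    have h2 : 8 * P.F r ≤ P.F (r + 1) * P.q r 0 := by exact_mod_cast h1
    exact h2.trans (Nat.mul_le_mul_left _ (h.q0_le_Q hr))
  rw [Pr_L_succ]
  calc 8 * (P.F r * P.L r) = 8 * P.F r * P.L r := by ring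
    _ ≤ P.F (r + 1) * P.Q r * P.L r := Nat.mul_le_mul_right _ key
    _ = _ := by ring

theorem NumX.size (h : NumX P D w s s' K) {r : ℕ} (hr : r < P.h) :
    2 * (P.F r * P.L r) ≤ P.F (r + 1) * P.L (r + 1) := by
  have := h.size8 hr
  omega

end num

/-! ## prices -/

section numx

variable {P : Pr κ} {D : ℝ} {w s s' : ℕ → ℝ} {K : ℝ}

theorem NumX.w_h_le (h : NumX P D w s s' K) {r : ℕ} (hr : r < P.h) : 1000 * w P.h ≤ w r := by
  have h1 := h.deepX r hr
  have h2 := h.w_anti (show r + 1 ≤ P.h from hr) le_rfl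
  linarith

/-- the sizes are large against the constants -/
def Big (P : Pr κ) (w : ℕ → ℝ) (K CI : ℝ) : Prop :=
  0 ≤ CI ∧ ∀ r < P.h, 2000 * (Real.log (80 * K) + CI) ≤ w r

/-- **hA** -/
theorem NumX.hA (h : NumX P D w s s' K) {CI : ℝ} (hb : Big P w K CI) {I : ℕ}
    (hI : (I : ℝ) ≤ exp (CI + D / 2)) {δ : ℝ} (hδ : δ ≤ w P.h) {r : ℕ} (hr : r < P.h) :
    80 * I * P.A r * P.p r 0 * P.p r 2 * Real.sqrt (P.q r 1) ≤ exp (-δ) * P.q r 1 := by
  have e1 := h.Dl r hr
  have e2 := h.Ap r hr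
  have e3 := h.w_h_le hr
  have e4 := hb.2 r hr
  have e5 := hb.1
  have hK := h.K1
  have hlog : 0 ≤ Real.log (80 * K) := Real.log_nonneg (by linarith)
  set q : ℝ := (P.q r 1 : ℝ) with hq
  have hq0 : 0 < q := h.q_pos hr 1
  have hsq : exp (0.187 * w r) ≤ Real.sqrt q := by
    apply Real.le_sqrt_of_sq_le
    rw [← exp_nat_mul]
    refine le_trans (le_of_eq ?_) (h.q1 r hr)
    congr 1
    push_cast
    ring
  have hApos : 0 ≤ P.A r * (P.p r 0 * P.p r 2) := by
    apply mul_nonneg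
    · exact Finset.prod_nonneg (fun _ _ => by positivity)
    · positivity
  have key : 80 * I * P.A r * P.p r 0 * P.p r 2 ≤ exp (-δ) * Real.sqrt q := by
    calc 80 * I * P.A r * P.p r 0 * P.p r 2 = 80 * (I * (P.A r * (P.p r 0 * P.p r 2))) := by ring
      _ ≤ 80 * (exp (CI + D / 2) * K) := by
          apply mul_le_mul_of_nonneg_left _ (by norm_num)
          exact mul_le_mul hI e2 hApos (exp_pos _).le
      _ = exp (Real.log (80 * K) + (CI + D / 2)) := by
          rw [exp_add (Real.log (80 * K)), exp_log (by linarith)]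
          ring
      _ ≤ exp (-δ + 0.187 * w r) := by
          apply exp_le_exp.2
          linarith
      _ = exp (-δ) * exp (0.187 * w r) := exp_add _ _
      _ ≤ _ := mul_le_mul_of_nonneg_left hsq (exp_pos _).le
  calc 80 * I * P.A r * P.p r 0 * P.p r 2 * Real.sqrt q
      ≤ (exp (-δ) * Real.sqrt q) * Real.sqrt q :=
        mul_le_mul_of_nonneg_right key (Real.sqrt_nonneg _)
    _ = exp (-δ) * q := by rw [mul_assoc, Real.mul_self_sqrt hq0.le]

/-- the labels against the jump of a front -/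
theorem NumX.lab (h : NumX P D w s s' K) {CI : ℝ} {r J : ℕ} (hr1 : 1 ≤ r) (hr : r ≤ P.h)
    (h1 : D ≤ s' r → (J : ℝ) ≤ exp CI) (h2 : (J : ℝ) ≤ exp (CI + D / 2)) :
    (J : ℝ) * ((P.F' r : ℝ) / P.F r) ≤ exp (CI - w r / 512) := by
  rw [h.F_ratio hr]
  have hj := h.jump r hr1 hr
  have hw := h.w_nonneg hr
  have e1 : w r / 512 ≤ D + s r - s' r := by
    rw [h.F_low hr, h.F' r hr, mul_assoc, ← exp_add] at hj
    have := exp_le_exp.1 (le_of_mul_le_mul_left hj h.M'_pos)
    linarith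
  rcases le_or_gt D (s' r) with hc | hc
  · calc (J : ℝ) * exp (-(D + s r - s' r)) ≤ exp CI * exp (-(D + s r - s' r)) :=
          mul_le_mul_of_nonneg_right (h1 hc) (exp_pos _).le
      _ = exp (CI - (D + s r - s' r)) := by
          rw [← exp_add]
          congr 1
      _ ≤ _ := by
          apply exp_le_exp.2
          linarith
  · have e2 := h.su' r hr
    have e3 := h.sl r hr
    have e4 := h.sl' r hr
    calc (J : ℝ) * exp (-(D + s r - s' r)) ≤ exp (CI + D / 2) * exp (-(D + s r - s' r)) :=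
          mul_le_mul_of_nonneg_right h2 (exp_pos _).le
      _ = exp (CI + D / 2 - (D + s r - s' r)) := by
          rw [← exp_add]
          congr 1
      _ ≤ _ := by
          apply exp_le_exp.2
          linarith

/-- **hB** -/
theorem NumX.hB (h : NumX P D w s s' K) {CI : ℝ} (hb : Big P w K CI) {δ : ℝ} (hδ : δ ≤ w P.h)
    {r J : ℕ} (hr : r < P.h) (hr1 : 1 ≤ r) (h1 : D ≤ s' r → (J : ℝ) ≤ exp CI)
    (h2 : (J : ℝ) ≤ exp (CI + D / 2)) : J * P.A r * P.pc r ≤ exp (-δ) := by
  have e0 := h.lab hr1 hr.le h1 h2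
  have e1 := h.Dl r hr
  have e2 := h.A r hr.le
  have e3 := h.w_h_le hr
  have e4 := hb.2 r hr
  have e5 := hb.1
  have hK := h.K1
  have hw := h.w1 r hr
  obtain ⟨t, rfl⟩ : ∃ t, r = t + 1 := ⟨r - 1, by omega⟩
  have e6 := h.deepX t (by omega)
  set q : ℝ := (P.q t 2 : ℝ) with hq
  have hq0 : 0 < q := h.q_pos (by omega) 2
  have e7 : exp (0.249 * w t) ≤ q := h.q2 t (by omega)
  have t2 : (J : ℝ) * (1 / q) ≤ exp (CI - w (t + 1) / 512) := by
    have d1 : (1 : ℝ) / q ≤ exp (-(0.249 * w t)) := by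
      rw [exp_neg, one_div]
      exact inv_anti₀ (exp_pos _) e7
    calc (J : ℝ) * (1 / q) ≤ exp (CI + D / 2) * exp (-(0.249 * w t)) :=
          mul_le_mul h2 d1 (by positivity) (exp_pos _).le
      _ = exp (CI + D / 2 - 0.249 * w t) := by
          rw [← exp_add]
          congr 1
      _ ≤ _ := by
          apply exp_le_exp.2
          linarith
  have hA0 : 0 ≤ P.A (t + 1) := Finset.prod_nonneg (fun _ _ => by positivity)
  have d1 : P.pc (t + 1) = (P.F' (t + 1) : ℝ) / P.F (t + 1) + 1 / q := rfl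
  have key : (J : ℝ) * P.pc (t + 1) ≤ 2 * exp (CI - w (t + 1) / 512) := by
    rw [d1, mul_add]
    linarith
  have hpc : 0 ≤ (J : ℝ) * P.pc (t + 1) := by
    rw [d1]
    positivity
  calc (J : ℝ) * P.A (t + 1) * P.pc (t + 1) = P.A (t + 1) * (J * P.pc (t + 1)) := by ring
    _ ≤ K * (2 * exp (CI - w (t + 1) / 512)) := mul_le_mul e2 key hpc (by linarith)
    _ ≤ 80 * K * exp (CI - w (t + 1) / 512) := by
        have := exp_pos (CI - w (t + 1) / 512)
        nlinarith
    _ = exp (Real.log (80 * K) + (CI - w (t + 1) / 512)) := by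
        rw [exp_add, exp_log (by linarith)]
    _ ≤ exp (-δ) := by
        apply exp_le_exp.2
        linarith

theorem NumX.W_le (h : NumX P D w s s' K) {r : ℕ} (hr : r ≤ P.h) :
    P.W r ≤ exp ((r : ℝ) / 2 * w 0) := by
  unfold Pr.W
  have h0 := h.w_nonneg (Nat.zero_le P.h)
  calc ∏ t ∈ range r, ((P.q t 2 : ℕ) : ℝ) ^ 2 ≤ ∏ _t ∈ range r, exp (w 0 / 2) := by
        refine Finset.prod_le_prod (fun _ _ => by positivity) (fun t ht => ?_)
        rw [mem_range] at ht
        have e1 := h.qg t (by omega) 2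
        rw [wt2] at e1
        have e2 := h.w_anti (Nat.zero_le t) (show t ≤ P.h by omega)
        calc ((P.q t 2 : ℕ) : ℝ) ^ 2 ≤ (exp (2 / 8 * w t)) ^ 2 := by gcongr
          _ = exp (w t / 2) := by
              rw [← exp_nat_mul]
              congr 1
              push_cast
              ring
          _ ≤ exp (w 0 / 2) := by
              apply exp_le_exp.2
              linarith
    _ = exp (w 0 / 2) ^ r := by rw [Finset.prod_const, card_range]
    _ = _ := by
        rw [← exp_nat_mul]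
        congr 1
        ring

/-- **hGamma** -/
theorem NumX.hG (h : NumX P D w s s' K) {r : ℕ} (hr : r < P.h) :
    (P.q r 0 * P.q r 1 : ℕ) * (P.W r * P.q r 1) ≤ exp (3 * w 0) := by
  have e0 := h.qg r hr 0
  have e1 := h.qg r hr 1
  have e2 := h.W_le hr.le
  have e3 := h.w_anti (Nat.zero_le r) hr.le
  have h3 := h.h3
  have hr2 : (r : ℝ) ≤ 2 := by exact_mod_cast (by omega : r ≤ 2)
  have h0 := h.w_nonneg (Nat.zero_le P.h)
  rw [wt0] at e0
  rw [wt1] at e1
  have hW : 0 ≤ P.W r := Finset.prod_nonneg (fun _ _ => by positivity)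
  push_cast
  calc (P.q r 0 : ℝ) * P.q r 1 * (P.W r * P.q r 1)
      ≤ exp (3 / 8 * w r) * exp (3 / 8 * w r) * (exp ((r : ℝ) / 2 * w 0) * exp (3 / 8 * w r)) := by
        gcongr
    _ = exp (3 / 8 * w r + 3 / 8 * w r + ((r : ℝ) / 2 * w 0 + 3 / 8 * w r)) := by
        rw [exp_add, exp_add, exp_add]
    _ ≤ _ := by
        apply exp_le_exp.2
        nlinarith

theorem NumX.hG' (h : NumX P D w s s' K) : P.W P.h ≤ exp (3 * w 0) := by
  refine (h.W_le le_rfl).trans ?_
  apply exp_le_exp.2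
  have h3 : (P.h : ℝ) ≤ 3 := by exact_mod_cast h.h3
  have h0 := h.w_nonneg (Nat.zero_le P.h)
  nlinarith

end numx

end Pool.Agent.Helper63.T5b
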