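import Pool.Agent.Helper63.T5b.ClsB
import Pool.Agent.Helper39.T5b.SlInst

/-!
# T5b, block NEARb: the numbers in the forms of helper39 (`NumB`) and helper66 (`Tg`, sharp labels)
-/

set_option autoImplicit false

namespace Pool.Agent.Helper63.T5b

open Finset
open Pool.Agent.Helper27.T4
open Pool.Agent.Helper37.T5b
open Pool.Agent.Helper30.T5b hiding pz_prime pz_inj NL_pos
open Pool.Agent.Helper22.HW Pool.Agent.Helper22.SL Pool.Agent.Helper57.T5
open Pool.Agent.Helper84.T5b Pool.Agent.Helper44.T5 Pool.Agent.Helper44.T5b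
open Pool.Agent.Helper39.T5
open Pool.Agent.Helper22.NEARb hiding lam
open Pool.Agent.Helper5.ET (bb era mask)
open Pool.Agent.Helper27.T5 (gw)
open Pool.Agent.Helper63.T5 (lam lam_gt lam_lt)
open Pool.Agent.Helper27.T5b (cpl_ef cpl_self Jn_mul_RT rL_bounds mL_le_ut)

variable {m k t l' l : ℕ}

theorem IrJ_eq (h : PDb m k t l' l) (r : ℕ) :
    Pool.Agent.Helper39.T5b.IrJ m k l l' t r = IrB m k t l' l r := by
  have e : ef m k l' (t + r) = ez m (sL m k l - (t + r)) l' := by
    unfold ef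
    rw [h.sL_eq]
  unfold Pool.Agent.Helper39.T5b.IrJ IrB Pool.Agent.Helper39.T5b.eJ eB
  rw [e]

/-- the numbers of a pair in the form of helper39 -/
theorem numB_of (hm : 0 < m) (h : PDb m k t l' l) (hL : LateN m k (cB k) l') :
    Pool.Agent.Helper39.T5b.NumB m k t l' l (Real.exp (42 * wW m k l t)) where
  big := hL.bb.trans (Pool.Agent.Helper27.T5b.l1_mono _ h.le)
  big' := hL.bb
  ok := PN_ok hm h hL
  hA := fun δ hδ r hr => PN_hA hm h hL hδ r hr
  hB := fun δ hδ r hr hr1 => by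
    rw [IrJ_eq h]
    exact PN_hB hm h hL hδ r hr hr1
  hG := fun r hr => PN_hG hm h hL r hr
  hG' := PN_hG' hm h hL

theorem exists_numB (m k : ℕ) (hm : 2 ≤ m) : ∃ K0 : ℕ, ∀ t l' l, K0 ≤ l' → PDb m k t l' l →
    Pool.Agent.Helper39.T5b.NumB m k t l' l (Real.exp (42 * wW m k l t)) := by
  obtain ⟨K0, h0⟩ := exists_lateN hm k (cB k)
  exact ⟨K0, fun t l' l hl' h => numB_of (by omega) h (h0 l' hl')⟩

/-! ## sharp class numbers -/

/-- the targets of a context -/
theorem tgB (hm : 0 < m) (h : PDb m k t l' l) {c0 : ℝ} (hL : LateN m k c0 l') {c : Cx}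
    (hc : c ∈ Jx m k t l' l) :
    Tg (PN m k t l' l) (nTx m k t l' l c) (XTx m k t l' l c) (IrB m k t l' l) :=
  Pool.Agent.Helper39.SL.tg_XT (PN_ok hm h hL) (DJ_pos m k l l' t) (FF_low hm h)
    (dvd_mul_right _ _) (fun r _ x => hIr hm h hc r x)

theorem IrB_sq_le (h : PDb m k t l' l) {r : ℕ} (hl : ef m k l' (t + r) ≤ l) :
    (PN m k t l' l).F' r * IrB m k t l' l r ^ 2 ≤ (PN m k t l' l).M := by
  rw [PN_F' h]
  show _ ≤ Jn m k (sL m k l) l
  rw [Jn_split m k (sL m k l) hl]
  apply Nat.mul_le_mul_left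
  unfold IrB NN
  rw [← Finset.prod_pow]
  apply Finset.prod_le_prod' (fun i _ => ?_)
  rw [← pow_mul]
  apply Nat.pow_le_pow_right (pJ_prime k _ i).pos
  show (uJ m k l l' i - eB m k t l' l r i) * 2 ≤
    aJ m k (sL m k l) l i - aJ m k (sL m k l) (ef m k l' (t + r)) i
  unfold uJ eB
  have h1 := aJ_mono m k (sL m k l) i hl
  omega

/-- sharp bound for the number of labels in a class of the front number `t + r` -/
theorem IrB_le (hm : 0 < m) (h : PDb m k t l' l) {c : ℝ} (hL : LateN m k c l') {r : ℕ}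
    (hr : r ≤ (PN m k t l' l).h) : (IrB m k t l' l r : ℝ) ≤
      max 1 (Real.exp (((lg m k l - lg m k l') -
        (lg m k (ef m k l' (t + r)) - lg m k l')) / 2)) := by
  have hX := numX hm h hL
  rcases Nat.le_total l (ef m k l' (t + r)) with h1 | h1
  · rw [IrB_eq_one h1, Nat.cast_one]
    exact le_max_left _ _
  · refine le_trans ?_ (le_max_right _ _)
    have h2 : ((PN m k t l' l).F' r : ℝ) * (IrB m k t l' l r : ℝ) ^ 2 ≤ (PN m k t l' l).M := by
      exact_mod_cast IrB_sq_le h h1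
    have hM' := hX.M'_pos
    rw [hX.F' r hr, hX.M, mul_assoc] at h2
    have h3 := le_of_mul_le_mul_left h2 hM'
    have h4 : (IrB m k t l' l r : ℝ) ^ 2 ≤ Real.exp ((lg m k l - lg m k l') -
        (lg m k (ef m k l' (t + r)) - lg m k l')) := by
      rw [Real.exp_sub (lg m k l - lg m k l'), le_div_iff₀ (Real.exp_pos _), mul_comm]
      exact h3
    have h5 : Real.exp (((lg m k l - lg m k l') -
        (lg m k (ef m k l' (t + r)) - lg m k l')) / 2) ^ 2 =
        Real.exp ((lg m k l - lg m k l') - (lg m k (ef m k l' (t + r)) - lg m k l')) := by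
      rw [← Real.exp_nat_mul]
      congr 1
      push_cast
      ring
    rw [← h5] at h4
    exact le_of_sq_le_sq h4 (Real.exp_pos _).le

theorem IJ_le' (hm : 0 < m) (h : PDb m k t l' l) (hbb : bb 0 ≤ mL m k l') :
    (IJ m k l l' : ℝ) ≤ Real.exp ((lg m k l - lg m k l') / 2) := by
  have h1 := IJ_le hm h hbb
  rwa [zero_add] at h1

/-- the distance in terms of the number of digits -/
theorem thousand_pow_le (m k : ℕ) {l' l : ℕ} (h : l' ≤ l) :
    (1000 : ℝ) ^ (l - l') ≤ Real.exp ((lg m k l - lg m k l') / 2) := by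
  have h1 := lg_ge m k h
  have h2 : lam = 2 * Real.log 1000 := by
    have e : lam = Real.log (10 ^ 6) := rfl
    rw [e, ← Real.log_rpow (by norm_num)]
    norm_num
  have h3 : (1000 : ℝ) ^ (l - l') = Real.exp (((l - l' : ℕ) : ℝ) * Real.log 1000) := by
    rw [← Real.log_pow, Real.exp_log (by positivity)]
  rw [h3]
  apply Real.exp_le_exp.2
  rw [h2] at h1
  linarith

end Pool.Agent.Helper63.T5b
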