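import Pool.Agent.Helper22.NEARs.Defs
import Pool.Agent.Helper48.T5b.EvSplit
import Pool.Agent.Helper37.T5b.OneEvent
import Pool.Agent.Helper63.T5b.NumGen
import Pool.Agent.Helper63.T5b.ClsB
import Pool.Agent.Helper39.T5b.SlInst

/-!
# T5b, block NEARs (pairs across SPLIT): the numbers of a pair
-/

set_option autoImplicit false

namespace Pool.Agent.Helper63.T5b

open Finset
open Pool.Agent.Helper27.T4
open Pool.Agent.Helper37.T5b
open Pool.Agent.Helper30.T5b hiding pz_prime pz_inj NL_pos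
open Pool.Agent.Helper22.HW Pool.Agent.Helper22.SL Pool.Agent.Helper57.T5
open Pool.Agent.Helper84.T5b Pool.Agent.Helper44.T5 Pool.Agent.Helper44.T5b
open Pool.Agent.Helper39.T5
open Pool.Agent.Helper22.NEARb (wW exists_hb lt_hb hb_le)
open Pool.Agent.Helper22.NEARs
open Pool.Agent.Helper5.ET (bb era mask)
open Pool.Agent.Helper27.T5 (gw)
open Pool.Agent.Helper63.T5 (lam lam_gt lam_lt)
open Pool.Agent.Helper27.T5b (cpl_ef cpl_self Jn_mul_RT rL_bounds mL_le_ut)
open Pool.Agent.Helper48.T5b (SplitP)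

variable {m k t l' l : ℕ}

/-! ## the schedule -/

/-- late pairs across SPLIT: the window of the event -/
theorem exists_splitP (hm : 0 < m) (k : ℕ) : ∃ l0 : ℕ, ∀ l' l, l0 ≤ l' → l' ≤ l →
    Near m k l' l → Split m k l' l → SplitP m k (sL m k l') l' l := by
  obtain ⟨l0, h0⟩ := Pool.Agent.Helper30.T5b.exists_late (k := k) hm 0 0
  refine ⟨l0, fun l' l hl' hl hN hS => ?_⟩
  obtain ⟨_, a2, a3, _, _⟩ := h0 l' hl'
  have hne : sv m k (mL m k l') ≠ sv m k (mL m k l) := by
    have h1 : sL m k l' + 1 = sL m k l := hS.1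
    intro h2
    have h3 : sL m k l' = sL m k l := h2
    omega
  have key : SplitEv m k (mL m k l') (mL m k l) := by
    rcases event_of_near hm hl a2 a3 hN with h | h | h | h | h | h | h
    · exact absurd h.sv_eq hne
    · exact absurd (h.sv'.trans h.sv.symm) hne
    · exact absurd (h.sv'.trans h.sv.symm) hne
    · exact absurd (h.sv'.trans h.sv.symm) hne
    · exact absurd (h.sv'.trans h.sv.symm) hne
    · exact h
    · exact absurd (h.sv'.trans h.sv.symm) hne
  have h1 := Pool.Agent.Helper48.T5b.SplitP_of hm hl key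
  have h2 := h1.s'
  rw [← h2] at h1
  exact h1

theorem PDs_lt (h : PDs m k t l' l) : l' < l := by
  rcases Nat.lt_or_ge l' l with h1 | h1
  · exact h1
  · exfalso
    have e : l' = l := le_antisymm h.le h1
    have h2 := h.sL_eq
    rw [e] at h2
    omega

theorem distS_lt (hm : 0 < m) (h : PDs m k t l' l) : 512 * (l - l') < wW m k l t := by
  have h2 := dist_of_common hm h.le h.com
  have h3 := PZ_mul hm (sL m k l - t)
  unfold wW
  omega

theorem D7S (hm : 0 < m) (h : PDs m k t l' l) : 20 * (l - l') < 7 * wW m k l t := by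
  have := distS_lt hm h
  omega

theorem D2S (hm : 0 < m) (h : PDs m k t l' l) (h2 : t + 2 ≤ rL m k l) :
    wW m k l (t + 2) < 1024 * (l - l') := by
  have h1 := h.jump (t + 1) (by omega) (by omega)
  have h3 := h.jump (t + 2) (by omega) h2
  have h4 := rL_bounds hm k l
  have h5 := two_jumps hm (show sL m k l - (t + 2) < sL m k l - (t + 1) by omega) h.le h3 h1
  have h6 := PZ_mul hm (sL m k l - (t + 2))
  unfold wW
  omega

theorem hbS_le_three (hm : 0 < m) (h : PDs m k t l' l) :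
    Pool.Agent.Helper22.NEARs.hb m k t l' l ≤ 3 := by
  by_contra hc
  rw [Pool.Agent.Helper22.NEARs.hb] at hc
  have h1 := lt_hb (m := m) (k := k) (t := t) (l' := l') (l := l) (h := 3) (by omega) (by omega)
  have h2 := D2S hm h (by omega)
  have h4 := rL_bounds hm k l
  have h3 := wW_step hm k l (i := t + 2) (by omega)
  have e : t + 2 + 1 = t + 3 := rfl
  rw [e] at h3
  omega

/-- S0: numbers of a pair -/
theorem numS (m k : ℕ) (hm : 2 ≤ m) : NumS m k :=
  ⟨0, fun _ _ _ _ h => ⟨PDs_lt h, D7S (by omega) h, hbS_le_three (by omega) h⟩⟩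

theorem rS_lt (hm : 0 < m) (h : PDs m k t l' l) {r : ℕ}
    (hr : r < Pool.Agent.Helper22.NEARs.hb m k t l' l) :
    20 * (l - l') < 7 * wW m k l (t + r) ∧ t + r < rL m k l := by
  rcases Nat.eq_zero_or_pos r with h0 | h0
  · subst h0
    exact ⟨D7S hm h, h.tr⟩
  · exact lt_hb h0 hr

theorem rS_le (h : PDs m k t l' l) {r : ℕ} (hr : r ≤ Pool.Agent.Helper22.NEARs.hb m k t l' l) :
    t + r ≤ rL m k l := by
  have := hb_le (l' := l') h.tr
  have h2 : Pool.Agent.Helper22.NEARs.hb m k t l' l = Pool.Agent.Helper22.NEARb.hb m k t l' l := rfl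
  omega

/-! ## complete triples -/

theorem ez_le_add_SS (hm : 0 < m) (v l : ℕ) : ez m v l ≤ l + SS m v := by
  have h1 := ez_sub_le hm v l
  have h2 := lt_ez hm v l
  omega

theorem cplS (hm : 0 < m) (h : PDs m k t l' l) (hS : SplitP m k (sL m k l') l' l) {x : ℕ}
    (h1 : l' ≤ x) (h2 : x ≤ l + SS m (sL m k l)) :
    Pool.Agent.Helper48.T5b.Cpl m k (sL m k l) x := by
  have e := h.sL_eq
  have h3 := (hS.win x h1 (by rw [e]; exact h2)).cpl_succ hm le_rfl
  rw [e] at h3
  exact h3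

theorem cplS_u (hm : 0 < m) (h : PDs m k t l' l) (hS : SplitP m k (sL m k l') l' l) (i : ℕ) :
    Pool.Agent.Helper48.T5b.Cpl m k (sL m k l) (ez m (sL m k l - i) l) := by
  refine cplS hm h hS (h.le.trans (lt_ez hm _ l).le) ?_
  refine (ez_le_add_SS hm _ l).trans ?_
  have := SS_mono m (Nat.sub_le (sL m k l) i)
  omega

theorem cplS_l (hm : 0 < m) (h : PDs m k t l' l) (hS : SplitP m k (sL m k l') l' l) (i : ℕ) :
    Pool.Agent.Helper48.T5b.Cpl m k (sL m k l) (ez m (sL m k l - i) l') := by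
  refine cplS hm h hS (lt_ez hm _ l').le ?_
  refine (ez_mono m _ h.le).trans ((ez_le_add_SS hm _ l).trans ?_)
  have := SS_mono m (Nat.sub_le (sL m k l) i)
  omega

/-! ## the block -/

/-- the data of the block -/
theorem bdS (hm : 0 < m) (h : PDs m k t l' l) (hS : SplitP m k (sL m k l') l' l) (o : JF → ℕ) :
    BD (Pool.Agent.Helper22.NEARs.PN m k t l' l o) m k l' l (fun r => sL m k l - (t + r))
      (RT m k (sL m k l)) where
  le := h.le
  R0 := by exact_mod_cast RT_pos m k _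
  h3 := hbS_le_three hm h
  M := Jn_real (cplS hm h hS h.le (Nat.le_add_right _ _))
  M' := Jn_real (cplS hm h hS le_rfl (h.le.trans (Nat.le_add_right _ _)))
  F := fun r _ => Jn_real (cplS_u hm h hS (t + r))
  F' := fun r _ => Jn_real (cplS_l hm h hS (t + r))
  q := fun r _ i => rfl
  p := fun r _ i => by
    have e : (Pool.Agent.Helper22.NEARs.PN m k t l' l o).p r i = pz k (sL m k l - (t + r)) i := rfl
    rw [e]
    exact Nat.cast_le.2 (pz_le k (sL m k l - (t + r)) i)
  vs := fun r hr => by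
    have h1 := (rS_lt hm h hr).2
    have h4 := rL_bounds hm k l
    show sL m k l - (t + (r + 1)) < sL m k l - (t + r)
    omega
  vb := fun r hr => by
    have h1 := rS_le h hr
    have h4 := rL_bounds hm k l
    have h5 := h.bL_eq
    show bL m k l' ≤ sL m k l - (t + r)
    omega
  D := fun r hr => (rS_lt hm h hr).1
  jump := fun r hr1 hr => h.jump (t + r) (by omega) (rS_le h hr)

theorem numXS (hm : 0 < m) (h : PDs m k t l' l) (hS : SplitP m k (sL m k l') l' l) {c : ℝ}
    (hL : LateN m k c l') (o : JF → ℕ) :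
    NumX (Pool.Agent.Helper22.NEARs.PN m k t l' l o) (lg m k l - lg m k l')
      (fun r => (SS m (sL m k l - (t + r)) : ℝ) * lam)
      (fun r => lg m k (ez m (sL m k l - (t + r)) l) - lg m k l)
      (fun r => lg m k (ez m (sL m k l - (t + r)) l') - lg m k l') (KG k) :=
  (bdS hm h hS o).numX hm hL

theorem PNs_Q (m k t l' l : ℕ) (o : JF → ℕ) (r : ℕ) :
    (Pool.Agent.Helper22.NEARs.PN m k t l' l o).Q r = QQ m k (sL m k l) (t + r) := rfl

theorem PNs_L (m k t l' l : ℕ) (o : JF → ℕ) (r : ℕ) :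
    (Pool.Agent.Helper22.NEARs.PN m k t l' l o).L r = LL (QQ m k (sL m k l)) (t + r) := by
  induction r with
  | zero =>
    unfold Pr.L
    rw [Finset.range_zero, Finset.prod_empty, mul_one]
    rfl
  | succ r ih =>
    rw [Pr_L_succ, ih, PNs_Q, ← add_assoc, LL_succ, mul_comm]

theorem PNs_S (m k t l' l : ℕ) (o : JF → ℕ) (r : ℕ) :
    (Pool.Agent.Helper22.NEARs.PN m k t l' l o).S r = Ss m k l (t + r) 0 := by
  have e : (Pool.Agent.Helper22.NEARs.PN m k t l' l o).S r =
    ⟨FF m k l (t + (r + 1)) * (Pool.Agent.Helper22.NEARs.PN m k t l' l o).L r,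
    zf m k (sL m k l - (t + r)), zf m k (sL m k l - (t + r)), (Ss m k l (t + r) 0).key⟩ := rfl
  rw [e, PNs_L]
  rfl

/-- a side with another index -/
theorem side_okS {m k l' u j : ℕ} (o : JF → ℕ) {F : ℕ} (hF : F = (Ss m k l' u o).F)
    (hj : sL m k l' - u = j) (hu : u ≤ sL m k l') (hk : u ≤ k + 1) :
    (⟨F, zf m k j, zf m k j, (Ss m k l' u o).key⟩ : Side (pz k j) Key).Ok rk3 (Mk m k) := by
  subst hj
  subst hF
  exact Ss_ok hu hk o

theorem PNs_S'_F (hm : 0 < m) (h : PDs m k t l' l) (hS : SplitP m k (sL m k l') l' l)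
    (o o' : JF → ℕ) (r : ℕ) : (Pool.Agent.Helper22.NEARs.PN m k t l' l o).F' (r + 1) *
      (Pool.Agent.Helper22.NEARs.PN m k t l' l o).L r = (Ss m k l' (t - 1 + r) o').F := by
  have h1 := hS.Ss_lower hm (t - 1 + r) o'
  have e := h.sL_eq
  have ht := h.t1
  rw [h1, PNs_L]
  show Jn m k (sL m k l) (ez m (sL m k l - (t + (r + 1))) l') * _ = _
  unfold Pool.Agent.Helper48.T5b.SplitP.Gf
  rw [e]
  have e1 : t - 1 + r + 2 = t + (r + 1) := by omega
  have e2 : t - 1 + r + 1 = t + r := by omega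
  rw [e1, e2]

/-- **`P.Ok` for the pair across SPLIT** -/
theorem PNs_ok (hm : 0 < m) (h : PDs m k t l' l) (hS : SplitP m k (sL m k l') l' l) {c : ℝ}
    (hL : LateN m k c l') (o : JF → ℕ) :
    (Pool.Agent.Helper22.NEARs.PN m k t l' l o).Ok (Mk m k) := by
  have hX := numXS hm h hS hL o
  have hs := h.sL_eq
  have ht := h.t1
  have hrb := rL_bounds hm k l
  have hrb' := rL_bounds hm k l'
  have hrle := h.rL_eq
  have hrl : ∀ r ≤ (Pool.Agent.Helper22.NEARs.PN m k t l' l o).h, t + r ≤ rL m k l :=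
    fun r hr => rS_le h hr
  have hlt := PDs_lt h
  refine
    { prime := fun r i => pz_prime k _ i
      odd := fun r i => pz_ne_two k _ i
      inj := fun r => pz_inj k _
      sok := ?_
      sok' := ?_
      adm := fun r => Pool.Agent.Helper73.T5.sadm_of_adm (pz_prime k _) (pz_ne_two k _)
        (Ys_adm m k l (t + r))
      kd := ?_
      kd' := ?_
      kdd' := ?_
      com := ?_
      posF := FF_pos _ _ _ _
      posM' := Jn_pos _ _ _ _
      posL := LL_QQ_pos _ _ _ _
      M'M := Jn_dvd _ _ _ h.le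
      MF := ?_
      M'F' := ?_
      F'F := ?_
      FF := ?_
      F'F' := ?_
      copL := ?_
      size := fun r hr => hX.size hr
      zF := fun r hr => hX.zF hr
      mid := fun r hr => hX.mid hr }
  · intro r hr
    have h1 := hrl r hr.le
    rw [PNs_S]
    exact Ss_ok (by omega) (by omega) 0
  · intro r hr
    have h1 := hrl (r + 1) hr
    have e : (Pool.Agent.Helper22.NEARs.PN m k t l' l o).S' r =
      ⟨(Pool.Agent.Helper22.NEARs.PN m k t l' l o).F' (r + 1) *
        (Pool.Agent.Helper22.NEARs.PN m k t l' l o).L r,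
      zf m k (sL m k l - (t + r)), zf m k (sL m k l - (t + r)),
      (Ss m k l' (t - 1 + r) (if t - 1 + r = 0 then o else 0)).key⟩ := rfl
    rw [e]
    exact side_okS _ (PNs_S'_F hm h hS o _ r) (by omega) (by omega) (by omega)
  · intro r r' hrr i y i' y' hk
    have h1 : Key.S l (t + r) i 0 (mask (univ.filter (fun g => g < i)) y) =
      Key.S l (t + r') i' 0 (mask (univ.filter (fun g => g < i')) y') := hk
    simp only [Key.S.injEq, true_and] at h1
    omega
  · intro r r' hrr i y i' y' hk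
    have h1 : Key.S l' (t - 1 + r) i (if t - 1 + r = 0 then o else 0)
        (mask (univ.filter (fun g => g < i)) y) =
      Key.S l' (t - 1 + r') i' (if t - 1 + r' = 0 then o else 0)
        (mask (univ.filter (fun g => g < i')) y') := hk
    simp only [Key.S.injEq, true_and] at h1
    omega
  · intro r r' i y i' y' hk
    have h1 : Key.S l (t + r) i 0 (mask (univ.filter (fun g => g < i)) y) =
      Key.S l' (t - 1 + r') i' (if t - 1 + r' = 0 then o else 0)
        (mask (univ.filter (fun g => g < i')) y') := hk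
    simp only [Key.S.injEq] at h1
    omega
  · show Jn m k (sL m k l) (ez m (sL m k l - (t + 0)) l) =
      Jn m k (sL m k l) (ez m (sL m k l - (t + 0)) l')
    rw [add_zero, h.com]
  · intro r _
    exact Jn_dvd _ _ _ (lt_ez hm _ l).le
  · intro r _
    exact Jn_dvd _ _ _ (lt_ez hm _ l').le
  · intro r _
    exact Jn_dvd _ _ _ (ez_mono m _ h.le)
  · intro r _
    exact Jn_dvd _ _ _ (ez_le hm (by omega) l)
  · intro r _
    exact Jn_dvd _ _ _ (ez_le hm (by omega) l')
  · intro r hr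
    have h1 := hrl r hr
    rw [PNs_L]
    exact coprime_LL_Jn (by omega) (by omega) _

/-! ## the number of labels and the prices -/

theorem IJ_le_gen {s : ℕ} (hs : sL m k l = s) (hl : l' ≤ l)
    (h1 : Pool.Agent.Helper48.T5b.Cpl m k s l) (h2 : Pool.Agent.Helper48.T5b.Cpl m k s l') :
    (IJ m k l l' : ℝ) ≤ Real.exp ((lg m k l - lg m k l') / 2) := by
  subst hs
  have e1 := Jn_real h1
  have e2 := Jn_real h2
  have h3 : (Jn m k (sL m k l) l' : ℝ) * (IJ m k l l' : ℝ) ^ 2 ≤ Jn m k (sL m k l) l := by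
    exact_mod_cast IJ_sq_le m k hl
  have hR : (0 : ℝ) < RT m k (sL m k l) := by exact_mod_cast RT_pos m k _
  have h4 : (IJ m k l l' : ℝ) ^ 2 ≤ Real.exp (lg m k l - lg m k l') := by
    rw [e1, e2, div_mul_eq_mul_div, div_le_div_iff_of_pos_right hR] at h3
    rw [Real.exp_sub, le_div_iff₀ (Real.exp_pos _)]
    linarith
  have h5 : Real.exp ((lg m k l - lg m k l') / 2) ^ 2 = Real.exp (lg m k l - lg m k l') := by
    rw [← Real.exp_nat_mul]
    congr 1
    push_cast
    ring
  rw [← h5] at h4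
  exact le_of_sq_le_sq h4 (Real.exp_pos _).le

theorem IJS_le (hm : 0 < m) (h : PDs m k t l' l) (hS : SplitP m k (sL m k l') l' l) :
    (IJ m k l l' : ℝ) ≤ Real.exp ((lg m k l - lg m k l') / 2) :=
  IJ_le_gen rfl h.le (cplS hm h hS h.le (Nat.le_add_right _ _))
    (cplS hm h hS le_rfl (h.le.trans (Nat.le_add_right _ _)))

theorem IrJ_le_IJ (m k l l' t r : ℕ) :
    Pool.Agent.Helper39.T5b.IrJ m k l l' t r ≤ IJ m k l l' := by
  unfold Pool.Agent.Helper39.T5b.IrJ IJ
  apply Finset.prod_le_prod' (fun i _ => ?_)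
  exact Nat.pow_le_pow_right (pJ_prime k _ i).pos (Nat.sub_le _ _)

theorem IrJ_eq_one {r : ℕ} (hl : l ≤ ez m (sL m k l - (t + r)) l') :
    Pool.Agent.Helper39.T5b.IrJ m k l l' t r = 1 := by
  unfold Pool.Agent.Helper39.T5b.IrJ
  apply Finset.prod_eq_one
  intro i _
  have h1 := aJ_mono m k (sL m k l) i hl
  have h2 : uJ m k l l' i - Pool.Agent.Helper39.T5b.eJ m k l l' t r i = 0 := by
    unfold uJ Pool.Agent.Helper39.T5b.eJ
    omega
  rw [h2, pow_zero]

/-- the number needed for `hA`, `hB` -/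
noncomputable def cG (k : ℕ) : ℝ := 2000 * Real.log (80 * KG k)

theorem le_wS {δ : ℝ} (hδ : δ ≤ wW m k l (Pool.Agent.Helper22.NEARs.sb m k t l' l))
    (o : JF → ℕ) : δ ≤ (SS m (sL m k l - (t + (Pool.Agent.Helper22.NEARs.PN m k t l' l o).h)) : ℝ) *
      lam := by
  have e : (wW m k l (Pool.Agent.Helper22.NEARs.sb m k t l' l) : ℝ) =
    (SS m (sL m k l - (t + (Pool.Agent.Helper22.NEARs.PN m k t l' l o).h)) : ℝ) := rfl
  rw [e] at hδ
  have h2 := lam_gt
  have h3 : (0 : ℝ) ≤ (SS m (sL m k l - (t + (Pool.Agent.Helper22.NEARs.PN m k t l' l o).h)) : ℝ) :=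
    Nat.cast_nonneg _
  nlinarith

/-- `hA` of `sl_union` -/
theorem PNs_hA (hm : 0 < m) (h : PDs m k t l' l) (hS : SplitP m k (sL m k l') l' l)
    (hL : LateN m k (cG k) l') {δ : ℝ}
    (hδ : δ ≤ wW m k l (Pool.Agent.Helper22.NEARs.sb m k t l' l)) (o : JF → ℕ) :
    ∀ r < (Pool.Agent.Helper22.NEARs.PN m k t l' l o).h,
    80 * (IJ m k l l' : ℝ) * (Pool.Agent.Helper22.NEARs.PN m k t l' l o).A r *
      (Pool.Agent.Helper22.NEARs.PN m k t l' l o).p r 0 *
      (Pool.Agent.Helper22.NEARs.PN m k t l' l o).p r 2 *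
      Real.sqrt ((Pool.Agent.Helper22.NEARs.PN m k t l' l o).q r 1) ≤
        Real.exp (-δ) * (Pool.Agent.Helper22.NEARs.PN m k t l' l o).q r 1 := by
  intro r hr
  have hI := IJS_le hm h hS
  rw [← zero_add ((lg m k l - lg m k l') / 2)] at hI
  exact (numXS hm h hS hL o).hA ((bdS hm h hS o).big hL) hI (le_wS hδ o) hr

/-- `hB` of `sl_union` -/
theorem PNs_hB (hm : 0 < m) (h : PDs m k t l' l) (hS : SplitP m k (sL m k l') l' l)
    (hL : LateN m k (cG k) l') {δ : ℝ}
    (hδ : δ ≤ wW m k l (Pool.Agent.Helper22.NEARs.sb m k t l' l)) (o : JF → ℕ) :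
    ∀ r < (Pool.Agent.Helper22.NEARs.PN m k t l' l o).h, 1 ≤ r →
    (Pool.Agent.Helper39.T5b.IrJ m k l l' t r : ℝ) *
      (Pool.Agent.Helper22.NEARs.PN m k t l' l o).A r *
      (Pool.Agent.Helper22.NEARs.PN m k t l' l o).pc r ≤ Real.exp (-δ) := by
  intro r hr hr1
  refine (numXS hm h hS hL o).hB ((bdS hm h hS o).big hL) (le_wS hδ o) hr hr1 ?_ ?_
  · intro hD
    have h2 : l ≤ ez m (sL m k l - (t + r)) l' := le_of_lg_le m k (by linarith)
    rw [IrJ_eq_one h2, Real.exp_zero, Nat.cast_one]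
  · rw [zero_add]
    refine le_trans ?_ (IJS_le hm h hS)
    exact_mod_cast IrJ_le_IJ m k l l' t r

/-- `hΓ` of `sl_union` -/
theorem PNs_hG (hm : 0 < m) (h : PDs m k t l' l) (hS : SplitP m k (sL m k l') l' l) {c : ℝ}
    (hL : LateN m k c l') (o : JF → ℕ) :
    ∀ r < (Pool.Agent.Helper22.NEARs.PN m k t l' l o).h,
      (((Pool.Agent.Helper22.NEARs.PN m k t l' l o).q r 0 *
        (Pool.Agent.Helper22.NEARs.PN m k t l' l o).q r 1 : ℕ) : ℝ) *
      ((Pool.Agent.Helper22.NEARs.PN m k t l' l o).W r *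
        (Pool.Agent.Helper22.NEARs.PN m k t l' l o).q r 1) ≤ Real.exp (42 * wW m k l t) := by
  intro r hr
  refine ((numXS hm h hS hL o).hG hr).trans (Real.exp_le_exp.2 ?_)
  have e : (SS m (sL m k l - (t + 0)) : ℝ) = (wW m k l t : ℝ) := rfl
  show 3 * ((SS m (sL m k l - (t + 0)) : ℝ) * lam) ≤ _
  rw [e]
  have h2 := lam_lt
  have h3 : (0 : ℝ) ≤ wW m k l t := Nat.cast_nonneg _
  nlinarith

/-- `hΓ'` of `sl_union` -/
theorem PNs_hG' (hm : 0 < m) (h : PDs m k t l' l) (hS : SplitP m k (sL m k l') l' l) {c : ℝ}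
    (hL : LateN m k c l') (o : JF → ℕ) :
    (Pool.Agent.Helper22.NEARs.PN m k t l' l o).W (Pool.Agent.Helper22.NEARs.PN m k t l' l o).h ≤
      Real.exp (42 * wW m k l t) := by
  refine ((numXS hm h hS hL o).hG').trans (Real.exp_le_exp.2 ?_)
  have e : (SS m (sL m k l - (t + 0)) : ℝ) = (wW m k l t : ℝ) := rfl
  show 3 * ((SS m (sL m k l - (t + 0)) : ℝ) * lam) ≤ _
  rw [e]
  have h2 := lam_lt
  have h3 : (0 : ℝ) ≤ wW m k l t := Nat.cast_nonneg _
  nlinarith

end Pool.Agent.Helper63.T5b
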