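import Pool.Agent.Helper1.T5b.ZDefs
import Pool.Agent.Helper63.T5b.NumGen
import Pool.Agent.Helper39.T5b.InRep

/-!
# T5b, lines 6 and 7: the structure `NumX` for the pairs without a common front
-/

set_option autoImplicit false

namespace Pool.Agent.Helper63.T5b

open Finset
open Pool.Agent.Helper27.T4
open Pool.Agent.Helper37.T5b
open Pool.Agent.Helper30.T5b hiding pz_prime pz_inj NL_pos
open Pool.Agent.Helper22.HW Pool.Agent.Helper22.SL Pool.Agent.Helper57.T5
open Pool.Agent.Helper84.T5b Pool.Agent.Helper44.T5 Pool.Agent.Helper44.T5b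
open Pool.Agent.Helper22.NEARb hiding lam
open Pool.Agent.Helper5.ET (bb era)
open Pool.Agent.Helper27.T5 (gw)
open Pool.Agent.Helper63.T5 (lam lam_gt lam_lt)
open Pool.Agent.Helper27.T5b (cpl_ef cpl_self Jn_mul_RT rL_bounds mL_le_ut)
open Pool.Agent.Helper1.T5b
open Pool.Agent.Helper39.T5b (prB)

variable {m k t h l' l : ℕ}

/-- the numbers of levels of a pair (the part of `HzS` used here) -/
structure HZ (m k l' l : ℕ) : Prop where
  h3 : hz m k l' l ≤ 3
  hr : hz m k l' l ≤ rL m k l
  h7 : ∀ r < hz m k l' l, 20 * (l - l') < 7 * wW m k l r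

theorem DZ_sL (h : DZ m k l' l) : sL m k l' = sL m k l := h.same

/-- the data of the block of the levels `t, ..., t + h - 1` -/
theorem bdZ (hm : 0 < m) (hD : DZ m k l' l) (hH : HZ m k l' l) (hbb : bb 0 ≤ mL m k l')
    (hth : t + h ≤ hz m k l' l) :
    BD (prB m k l' l t h) m k l' l (fun r => sL m k l - (t + r)) (RT m k (sL m k l)) where
  le := hD.le
  R0 := by exact_mod_cast RT_pos m k _
  h3 := by
    have := hH.h3
    show h ≤ 3
    omega
  M := Jn_real (cpl_self hm (hbb.trans (Pool.Agent.Helper27.T5b.l1_mono _ hD.le)))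
  M' := by
    have := Jn_real (cpl_self hm hbb)
    rw [(DZ_sL hD)] at this
    exact this
  F := fun r _ => Jn_real (cpl_ef hm (hbb.trans (Pool.Agent.Helper27.T5b.l1_mono _ hD.le)) (t + r))
  F' := by
    intro r _
    have := Jn_real (cpl_ef hm hbb (t + r))
    rw [(DZ_sL hD)] at this
    show ((Jn m k (sL m k l') (ef m k l' (t + r)) : ℕ) : ℝ) = _
    rw [(DZ_sL hD), this]
    unfold ef
    rw [(DZ_sL hD)]
  q := fun r _ i => rfl
  p := fun r _ i => by
    have e : (prB m k l' l t h).p r i = pz k (sL m k l - (t + r)) i := rfl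
    rw [e]
    exact Nat.cast_le.2 (pz_le k (sL m k l - (t + r)) i)
  vs := fun r hr => by
    have hr' : r < h := hr
    have h1 := hH.hr
    have h4 := rL_bounds hm k l
    show sL m k l - (t + (r + 1)) < sL m k l - (t + r)
    omega
  vb := fun r hr => by
    have hr' : r ≤ h := hr
    have h1 := hH.hr
    have h4 := rL_bounds hm k l
    have h5 := hD.ble
    show bL m k l' ≤ sL m k l - (t + r)
    omega
  D := fun r hr => by
    have hr' : r < h := hr
    exact hH.h7 (t + r) (by omega)
  jump := fun r hr1 hr => by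
    have hr' : r ≤ h := hr
    have h1 := hH.hr
    have h2 := hD.jump (t + r) (by omega) (by omega)
    unfold ef at h2
    rw [(DZ_sL hD)] at h2
    exact h2

/-- **the structure `NumX` for the pairs without a common front** -/
theorem numXZ (hm : 0 < m) (hD : DZ m k l' l) (hH : HZ m k l' l) {c : ℝ} (hL : LateN m k c l')
    (hth : t + h ≤ hz m k l' l) :
    NumX (prB m k l' l t h) (lg m k l - lg m k l')
      (fun r => (SS m (sL m k l - (t + r)) : ℝ) * lam)
      (fun r => lg m k (ez m (sL m k l - (t + r)) l) - lg m k l)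
      (fun r => lg m k (ez m (sL m k l - (t + r)) l') - lg m k l') (KG k) :=
  (bdZ hm hD hH hL.bb hth).numX hm hL

/-! ## the block with another first window -/

variable (o o' : JF → ℕ)

theorem PZo_A (r : ℕ) : (PZo m k l' l t h o o').A r = (prB m k l' l t h).A r := rfl

theorem PZo_W (r : ℕ) : (PZo m k l' l t h o o').W r = (prB m k l' l t h).W r := rfl

theorem PZo_p (r : ℕ) (i : Fin 3) :
    (PZo m k l' l t h o o').p r i = (prB m k l' l t h).p r i := rfl

theorem PZo_q (r : ℕ) (i : Fin 3) :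
    (PZo m k l' l t h o o').q r i = (prB m k l' l t h).q r i := rfl

theorem PZo_Q (r : ℕ) : (PZo m k l' l t h o o').Q r = (prB m k l' l t h).Q r := rfl

theorem PZo_L (r : ℕ) : (PZo m k l' l t h o o').L r = (prB m k l' l t h).L r := rfl

theorem PZo_F {r : ℕ} (hr : 1 ≤ r) : (PZo m k l' l t h o o').F r = (prB m k l' l t h).F r := by
  have e : (PZo m k l' l t h o o').F r = if r = 0 then 4 * FF m k l t else FF m k l (t + r) := rfl
  rw [e, if_neg (by omega)]
  rfl

theorem PZo_F' {r : ℕ} (hr : 1 ≤ r) : (PZo m k l' l t h o o').F' r = (prB m k l' l t h).F' r := by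
  have e : (PZo m k l' l t h o o').F' r = if r = 0 then 4 * FF m k l t else FF m k l' (t + r) := rfl
  rw [e, if_neg (by omega)]
  rfl

theorem PZo_F0 : (PZo m k l' l t h o o').F 0 = 4 * (prB m k l' l t h).F 0 := rfl

theorem PZo_pc {r : ℕ} (hr : 1 ≤ r) : (PZo m k l' l t h o o').pc r = (prB m k l' l t h).pc r := by
  obtain ⟨u, rfl⟩ : ∃ u, r = u + 1 := ⟨r - 1, by omega⟩
  show ((PZo m k l' l t h o o').F' (u + 1) : ℝ) / (PZo m k l' l t h o o').F (u + 1) +
    1 / ((PZo m k l' l t h o o').q u 2 : ℝ) =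
    ((prB m k l' l t h).F' (u + 1) : ℝ) / (prB m k l' l t h).F (u + 1) +
    1 / ((prB m k l' l t h).q u 2 : ℝ)
  rw [PZo_F o o' hr, PZo_F' o o' hr]
  rfl

variable {o o'}

/-- `size` for the block with another first window -/
theorem PZo_size {D : ℝ} {w s s' : ℕ → ℝ} {K : ℝ} (hX : NumX (prB m k l' l t h) D w s s' K)
    {r : ℕ} (hr : r < h) : 2 * ((PZo m k l' l t h o o').F r * (PZo m k l' l t h o o').L r) ≤
      (PZo m k l' l t h o o').F (r + 1) * (PZo m k l' l t h o o').L (r + 1) := by
  rw [PZo_L, PZo_L, PZo_F o o' (Nat.le_add_left 1 r)]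
  have h8 := hX.size8 (r := r) hr
  rcases Nat.eq_zero_or_pos r with h0 | h0
  · subst h0
    rw [PZo_F0]
    have e : 2 * (4 * (prB m k l' l t h).F 0 * (prB m k l' l t h).L 0) =
      8 * ((prB m k l' l t h).F 0 * (prB m k l' l t h).L 0) := by ring
    rw [e]
    exact h8
  · rw [PZo_F o o' h0]
    omega

/-- `zF` for the block with another first window -/
theorem PZo_zF {D : ℝ} {w s s' : ℕ → ℝ} {K : ℝ} (hX : NumX (prB m k l' l t h) D w s s' K)
    {r : ℕ} (hr : r < h) : 6 * (PZo m k l' l t h o o').F r <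
      (PZo m k l' l t h o o').M' * (PZo m k l' l t h o o').q r 0 := by
  rw [PZo_q]
  have h8 := hX.zF24 (r := r) hr
  have e : (PZo m k l' l t h o o').M' = (prB m k l' l t h).M' := rfl
  rw [e]
  rcases Nat.eq_zero_or_pos r with h0 | h0
  · subst h0
    rw [PZo_F0]
    omega
  · rw [PZo_F o o' h0]
    omega

/-- `mid` for the block with another first window -/
theorem PZo_mid {D : ℝ} {w s s' : ℕ → ℝ} {K : ℝ} (hX : NumX (prB m k l' l t h) D w s s' K)
    {r : ℕ} (hr : r + 1 < h) : (PZo m k l' l t h o o').F (r + 1) ≤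
      (PZo m k l' l t h o o').F' (r + 1) * (PZo m k l' l t h o o').q r 2 := by
  rw [PZo_q, PZo_F o o' (Nat.le_add_left 1 r), PZo_F' o o' (Nat.le_add_left 1 r)]
  exact hX.mid hr

open Pool.Agent.Helper87.SL (NumL)

/-- the numbers of the last level -/
theorem PZo_numL {D : ℝ} {w s s' : ℕ → ℝ} {K : ℝ} (hX : NumX (prB m k l' l t h) D w s s' K)
    {u : ℕ} (hu : h = u + 1) :
    NumL (PZo m k l' l t h o o') D (w h) (w u) (s h) (s' h) K where
  D0 := hX.D0
  M := hX.M
  M'0 := hX.M'0
  F := by
    have e := PZo_F (m := m) (k := k) (l' := l') (l := l) (t := t) (h := h) o o' (r := h) (by omega)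
    show ((PZo m k l' l t h o o').F h : ℝ) = _
    rw [e]
    exact hX.F h le_rfl
  F' := by
    have e := PZo_F' (m := m) (k := k) (l' := l') (l := l) (t := t) (h := h) o o' (r := h) (by omega)
    show ((PZo m k l' l t h o o').F' h : ℝ) = _
    rw [e]
    exact hX.F' h le_rfl
  sl := hX.sl h le_rfl
  su := hX.su h le_rfl
  sl' := hX.sl' h le_rfl
  su' := hX.su' h le_rfl
  q2 := by
    intro u' hu'
    have hu'' : h = u' + 1 := hu'
    have e : u' = u := by omega
    subst e
    rw [PZo_q]
    exact hX.q2 u' (show u' < h by omega)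
  deep := by
    have := hX.deep u (show u < h by omega)
    rwa [← hu] at this
  w0 := hX.w_nonneg (r := h) le_rfl
  Dl := hX.Dl u (show u < h by omega)
  K1 := hX.K1
  A := hX.A h le_rfl

end Pool.Agent.Helper63.T5b
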